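import Pool.Agent.H196R3.QP3

/-!
# Bilinear relations between logarithms of primes, modulo linear forms in logarithms

Let `𝓛(γ)` be the space of all linear combinations, with algebraic coefficients, of `1`, of `d` given
complex numbers `γ_1, ..., γ_d` and of arbitrary logarithms of algebraic numbers.  Let `w_1, ..., w_r`
be arbitrary transcendental complex numbers (for instance logarithms of given primes) and
`λ_1, ..., λ_N` logarithms of algebraic numbers which are linearly independent over the rational
numbers (for instance the logarithms of `N` distinct primes).  Then for all but at most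
`r (2 d + r + 3) / 2 * N ^ (r - 1)` of the `N ^ r` choices of indices `j_1, ..., j_r` the `r` numbers
`w_1 λ_(j_1), ..., w_r λ_(j_r)` are linearly independent over the algebraic numbers modulo `𝓛(γ)`.

Proof: for `r = 1` Roy's strong six exponentials theorem, applied to `1, w` and three combinations of
the exceptional logarithms; the general case by adding the products found so far to the `γ_i`.
-/

set_option autoImplicit false

namespace Pool.Agent.Results.MP_d171e3_nt.FixedMultipliers

open Pool.Agent.H301R2.SSE Pool.Agent.H196R3.QP

/-- The space of all linear combinations with algebraic coefficients of `1`, of the numbers `γ j` and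
of logarithms of algebraic numbers. -/
noncomputable def LinForms {d : ℕ} (γ : Fin d → ℂ) : Submodule (algebraicClosure ℚ ℂ) ℂ :=
  Submodule.span (algebraicClosure ℚ ℂ)
    ({1} ∪ {z : ℂ | IsAlgebraic ℚ (Complex.exp z)} ∪ Set.range γ)

/-- The numbers `y k` are linearly independent over the algebraic numbers modulo `LinForms γ`. -/
def IndepMod {d r : ℕ} (γ : Fin d → ℂ) (y : Fin r → ℂ) : Prop :=
  ∀ α : Fin r → algebraicClosure ℚ ℂ, ∑ k, (α k : ℂ) * y k ∈ LinForms γ → α = 0

theorem linForms_eq {d : ℕ} (γ : Fin d → ℂ) : LinForms γ = LF γ := by
  rw [LinForms, LF, Lt, Submodule.span_union]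

theorem indepMod_iff {d r : ℕ} (γ : Fin d → ℂ) (y : Fin r → ℂ) : IndepMod γ y ↔ Ind γ y := by
  unfold IndepMod Ind
  rw [linForms_eq]

open Classical in
/-- **Main result.** -/
theorem result (N r d : ℕ) (l : Fin N → ℂ) (halg : ∀ j, IsAlgebraic ℚ (Complex.exp (l j)))
    (hli : LinearIndependent ℚ l) (w : Fin r → ℂ) (hw : ∀ k, Transcendental ℚ (w k))
    (γ : Fin d → ℂ) :
    2 * N * ((Finset.univ : Finset (Fin r → Fin N)).filter fun j =>
      ¬ IndepMod γ (fun k => w k * l (j k))).card ≤ r * (2 * d + r + 3) * N ^ r := by
  refine le_trans (le_of_eq ?_) (tuples halg hli r d w hw γ)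
  congr 2
  ext j
  simp only [Finset.mem_filter, indepMod_iff]

end Pool.Agent.Results.MP_d171e3_nt.FixedMultipliers
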