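import Mathlib
import Pool.Agent.H351R3.Sums.Count

/-!
# Sums of logarithms of primes satisfy only linear relations, up to a power-saving exceptional set

Let `p(a, j, i)`, `a < k`, `j < R`, `i < N`, be distinct primes.  For each choice `f` of indices
`f(a, j) < N` there are the `k` numbers `y_a = log ∏_j p(a, j, f(a, j))`, each a sum of `R`
logarithms of primes.  If `R` is large in terms of `k` and the degree bound `D`, then for all but
`2 k N^(k R - 2^(1 - R))` of the `N^(k R)` choices every polynomial of degree at most `D` whose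
value at `(y_1, ..., y_k)` is a linear form in logarithms of arbitrary algebraic numbers, with
algebraic coefficients, is linear.  There is a version with parameters `t` and `γ`.

The proof combines the theorem of Erdős on boxes in dense subsets of product sets (`box`), the
linear algebra of bilinear maps along cubes and determinants (`key2`), the strong six exponentials
theorem of D. Roy and Baker's theorem.
-/

set_option autoImplicit false

namespace Pool.Agent.Results.MP_d171e3_nt.SumsOfPrimeLogs

/-- The space of all linear combinations with algebraic coefficients of `1`, of the numbers `γ j` and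
of logarithms of algebraic numbers. -/
noncomputable def LinForms {g : ℕ} (γ : Fin g → ℂ) : Submodule (algebraicClosure ℚ ℂ) ℂ :=
  Submodule.span (algebraicClosure ℚ ℂ)
    ({1} ∪ {z : ℂ | IsAlgebraic ℚ (Complex.exp z)} ∪ Set.range γ)

/-- The numbers `t i` satisfy no nonzero polynomial relation of degree less than `D` with algebraic
coefficients. -/
def NoRelationBelow (D : ℕ) {l : ℕ} (t : Fin l → ℂ) : Prop :=
  ∀ P : MvPolynomial (Fin l) (algebraicClosure ℚ ℂ), P.totalDegree < D →
    MvPolynomial.aeval t P = 0 → P = 0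

/-- Every polynomial `P(T, Y)` with algebraic coefficients and degree at most `D` which takes at
`(t, y)` a value in `LinForms γ` has the form `P₀(T) + ∑ j, c j * Y j`. -/
def OnlyLinear (D : ℕ) {g l k : ℕ} (γ : Fin g → ℂ) (t : Fin l → ℂ) (y : Fin k → ℂ) : Prop :=
  ∀ P : MvPolynomial (Fin l ⊕ Fin k) (algebraicClosure ℚ ℂ), P.totalDegree ≤ D →
    MvPolynomial.aeval (Sum.elim t y) P ∈ LinForms γ →
    ∃ (P₀ : MvPolynomial (Fin l) (algebraicClosure ℚ ℂ)) (c : Fin k → algebraicClosure ℚ ℂ),
      P = MvPolynomial.rename Sum.inl P₀ +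
        ∑ j, MvPolynomial.C (c j) * MvPolynomial.X (Sum.inr j)

open Pool.Agent.H351R3.Log Pool.Agent.H351R3.Sums Pool.Agent.H301R2.SSE MvPolynomial

theorem linForms_eq {g : ℕ} (γ : Fin g → ℂ) :
    LinForms γ = (Lt ⊔ Submodule.span QB (Set.range γ) : Submodule QB ℂ) := by
  rw [LinForms, Lt, Submodule.span_union]

theorem decompose {l k : ℕ} (P : MvPolynomial (Fin l ⊕ Fin k) (algebraicClosure ℚ ℂ))
    (h : ∀ s ∈ P.support, Alw (spar (Fin k) (fun _ : Fin l => True)) s) :
    ∃ (P₀ : MvPolynomial (Fin l) (algebraicClosure ℚ ℂ)) (c : Fin k → algebraicClosure ℚ ℂ),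
      P = rename Sum.inl P₀ + ∑ j, C (c j) * X (Sum.inr j) := by
  classical
  set c : Fin k → algebraicClosure ℚ ℂ := fun j => coeff (Finsupp.single (Sum.inr j) 1) P with hc
  set Q := P - ∑ j, C (c j) * X (Sum.inr j) with hQ
  have hcoef : ∀ s, coeff s Q = coeff s P -
      ∑ j, c j * (if Finsupp.single (Sum.inr j) 1 = s then 1 else 0) := by
    intro s
    rw [hQ, coeff_sub, coeff_sum]
    simp only [coeff_C_mul, coeff_X]
  have hmem : Q ∈ Sq (algebraicClosure ℚ ℂ) (Fin l) (∅ : Finset (Fin k)) Q.totalDegree := by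
    intro s hs
    have hz : ∀ j, s (Sum.inr j) = 0 := by
      by_cases h1 : ∃ j : Fin k, Finsupp.single (Sum.inr j) 1 = s
      · exfalso
        obtain ⟨j, rfl⟩ := h1
        have h2 := hcoef (Finsupp.single (Sum.inr j) 1)
        rw [Finset.sum_eq_single j] at h2
        · rw [if_pos rfl, mul_one, hc, sub_self] at h2
          exact (MvPolynomial.mem_support_iff.1 hs) h2
        · intro i _ hij
          rw [if_neg, mul_zero]
          intro h3
          have := Finsupp.single_left_injective one_ne_zero h3
          exact hij (Sum.inr_injective this)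
        · intro h3; exact absurd (Finset.mem_univ _) h3
      · push Not at h1
        have h2 := hcoef s
        rw [Finset.sum_eq_zero (fun j _ => by rw [if_neg (h1 j), mul_zero]), sub_zero] at h2
        have h3 : s ∈ P.support := by
          rw [MvPolynomial.mem_support_iff, ← h2]
          exact MvPolynomial.mem_support_iff.1 hs
        rcases h s h3 with h4 | ⟨i, hi, h4⟩
        · intro j
          exact h4 (Sum.inr j) (fun h => h)
        · exfalso
          rcases i with i | j
          · exact hi trivial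
          · exact h1 j h4.symm
    refine ⟨(totalDegree_le_iff_mem _ _).1 le_rfl s hs, ?_, fun j _ => hz j⟩
    intro j
    rw [hz j]
    exact Nat.zero_le _
  obtain ⟨P₀, hP₀, _⟩ := Sq_empty hmem
  refine ⟨P₀, c, ?_⟩
  rw [← hP₀, hQ, sub_add_cancel]

open Classical in
/-- **Main result.** -/
theorem result (l k g D : ℕ) : ∃ R₀ : ℕ, ∀ R ≥ R₀, ∀ (N : ℕ) (p : Fin k → Fin R → Fin N → ℕ),
    (∀ a j i, (p a j i).Prime) →
    (Function.Injective fun x : Fin k × Fin R × Fin N => p x.1 x.2.1 x.2.2) →
    ∀ (γ : Fin g → ℂ) (t : Fin l → ℂ), NoRelationBelow D t →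
      (((Finset.univ : Finset (Fin k → Fin R → Fin N)).filter fun f =>
        ¬ OnlyLinear D γ t fun a => (Real.log ((∏ j, p a j (f a j) : ℕ) : ℝ) : ℂ)).card : ℝ) ≤
      2 * k * (N : ℝ) ^ (k * R) * (N : ℝ) ^ (-(1 / 2 ^ (R - 1)) : ℝ) := by
  obtain ⟨R₀, _, hR₀⟩ := count_tuples k (Fin l) D (2 + g + g)
  refine ⟨R₀, fun R hR N p hp hinj γ t ht => ?_⟩
  have hrank : Module.rank QB (Submodule.span QB (Set.range γ)) ≤ g := by
    refine (rank_span_le _).trans ?_
    refine Cardinal.mk_range_le.trans ?_
    simp
  have hV := KBd_sup (κ := QB) (C := ℂ) Lt (Submodule.span QB (Set.range γ)) 2 g KBd_Lt hrank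
  have ht' : NLP (κ := QB) (C := ℂ) (Lt ⊔ Submodule.span QB (Set.range γ)) (fun _ : Fin l => True)
      D t :=
    ⟨fun P _ _ s _ => Or.inl fun i hi => absurd trivial hi, fun P hP h0 => ht P hP h0⟩
  have hlog : ∀ (a : Fin k) (f : Fin k → Fin R → Fin N),
      (Real.log ((∏ j, p a j (f a j) : ℕ) : ℝ) : ℂ) = ∑ j, (Real.log (p a j (f a j)) : ℂ) := by
    intro a f
    push_cast
    rw [Real.log_prod (fun j _ => by exact_mod_cast (hp a j (f a j)).pos.ne')]
    push_cast
    rfl
  have key := hR₀ R hR N _ le_sup_left hV (fun _ => True) t ht'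
    (fun a j i => (Real.log (p a j i) : ℂ))
    (fun a j i => by
      rw [← Complex.ofReal_exp, Real.exp_log (by exact_mod_cast (hp a j i).pos),
        Complex.ofReal_natCast]
      exact isAlgebraic_natCast _)
    (Pool.Agent.H297R2.linearIndependent_log_prime
      (fun x : Fin k × Fin R × Fin N => p x.1 x.2.1 x.2.2) (fun x => hp _ _ _) hinj)
  refine le_trans ?_ (key.trans (le_of_eq ?_))
  · have hsub : ((Finset.univ : Finset (Fin k → Fin R → Fin N)).filter fun f =>
        ¬ OnlyLinear D γ t fun a => (Real.log ((∏ j, p a j (f a j) : ℕ) : ℝ) : ℂ)) ⊆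
      (Finset.univ : Finset (Fin k → Fin R → Fin N)).filter (fun f =>
        ¬ NLP (κ := QB) (C := ℂ) (Lt ⊔ Submodule.span QB (Set.range γ))
          (spar (Fin k) (fun _ : Fin l => True)) D
          (Sum.elim t (fun a => ∑ j, (Real.log (p a j (f a j)) : ℂ)))) := by
      intro f hf
      rw [Finset.mem_filter] at hf ⊢
      refine ⟨Finset.mem_univ _, fun hN => hf.2 ?_⟩
      intro P hP hPV
      rw [linForms_eq] at hPV
      apply decompose P (hN.1 P hP ?_)
      simp only [hlog] at hPV
      exact hPV
    exact_mod_cast Finset.card_le_card hsub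
  · rw [sav]
    ring

end Pool.Agent.Results.MP_d171e3_nt.SumsOfPrimeLogs
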